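import Pool.Agent.H87.IS.Stmts

/-! # ISO, row LOG: from the local series to the relative series, finitely many critical points -/

set_option autoImplicit false

namespace Pool.Agent.H87.IS

open MvPolynomial Pool.Agent.H39.MonoR Pool.Agent.H75.Mono Pool.Agent.H87.QF

namespace LOGAux

theorem alg {R : Type*} [CommRing R] {J : Type*} (s : Finset J) (f f' : J → R) (w : R) :
    ∑ j ∈ s, (f j - f' j) = (∑ j ∈ s, f j + w) - (∑ j ∈ s, f' j + w) := by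
  simp only [Finset.sum_sub_distrib]
  ring

theorem fsum {R : Type*} [CommRing R] {u : Rˣ} {S : Set (ℤ × ℕ)} {T J : Type*}
    (s : Finset J) {F : J → T → PowerSeries R} (h : ∀ j ∈ s, RatF u S (F j)) :
    RatF u S fun t => ∑ j ∈ s, F j t := by
  classical
  induction s using Finset.induction_on with
  | empty =>
    refine (RatF.of_fin 0 fun t n _ => ?_ : RatF u ∅ _).mono (Set.empty_subset _)
    simp
  | insert a s ha ih =>
    have h1 := (h a (Finset.mem_insert_self a s)).add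
      (ih fun j hj => h j (Finset.mem_insert_of_mem hj))
    rw [Set.union_self] at h1
    refine h1.congr fun t => ?_
    rw [Finset.sum_insert ha]

theorem alg2 {R : Type*} [CommRing R] {J : Type*} (s : Finset J) (f : J → R) (w : R) :
    (∑ j ∈ s, f j) * w = ∑ j ∈ s, f j * w := Finset.sum_mul _ _ _

variable {k : Type} [Field k] [Algebra k ℂ] {σ : Type}

/-- the point `P` -/
def Pt (P : σ → k) : Set (σ → ℂ) := {x | ∀ i, x i = algebraMap k ℂ (P i)}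

theorem pt_cons [Finite σ] (P : σ → k) : ICons k (Pt P) :=
  ICons.forall_fin fun i => ICons.eq (PFun.apply i) (PFun.const (P i))

/-- the decomposition according to the origin -/
theorem key [Finite σ] (f : MvPolynomial σ k) (P : Finset (σ → k))
    (hP : ∀ x : σ → ℂ, aeval x f = 0 → (∀ i, aeval x (pderiv i f) = 0) →
      ∃ p ∈ P, ∀ i, x i = algebraMap k ℂ (p i)) {d : ℕ} (hd : d ≠ 0) (t : Test k) :
    zt f d t = ∑ p ∈ P, lz f p d t +
      mo k {x : (σ × Fin (d + 1) → ℂ) × t.E | x.2 ∈ t.W ∧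
        org x.1 ∈ {x : σ → ℂ | ¬ ∃ p ∈ P, x ∈ Pt p} ∧
        (∃ i, aeval (org x.1) (pderiv i f) ≠ 0) ∧ Hit f d x.1 (t.c x.2)} *
        ↑(Lu k ^ (-((Nat.card σ * d : ℕ) : ℤ))) := by
  classical
  have hc : PFun k (fun x : (σ × Fin (d + 1) → ℂ) × t.E => t.c x.2) := t.pf.comp PMap.snd
  have horg : PMap k (fun x : (σ × Fin (d + 1) → ℂ) × t.E => org x.1) :=
    PMap.comp (f := fun φ : σ × Fin (d + 1) → ℂ => Pool.Agent.H75.Mono.org φ) PMap.org PMap.fst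
  have hT : ICons k {x : σ → ℂ | ∃ p ∈ P, x ∈ Pt p} := by
    have e : {x : σ → ℂ | ∃ p ∈ P, x ∈ Pt p} = {x : σ → ℂ | ∃ p : P, x ∈ Pt p.1} := by
      ext x
      constructor
      · rintro ⟨P, h1, h2⟩
        exact ⟨⟨P, h1⟩, h2⟩
      · rintro ⟨⟨P, h1⟩, h2⟩
        exact ⟨P, h1, h2⟩
    rw [e]
    exact ICons.exists_fin fun p => pt_cons p.1
  have hcc : ∀ Q : Set (σ → ℂ), ICons k Q → ICons k {x : (σ × Fin (d + 1) → ℂ) × t.E |
      x.2 ∈ t.W ∧ org x.1 ∈ Q ∧ Hit f d x.1 (t.c x.2)} := fun Q hQ =>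
    (t.cW.mem PMap.snd).and ((hQ.mem horg).and (ICons.hit d _ PMap.fst hc))
  have e1 : {x : (σ × Fin (d + 1) → ℂ) × t.E | x ∈ {x : (σ × Fin (d + 1) → ℂ) × t.E |
      x.2 ∈ t.W ∧ Hit f d x.1 (t.c x.2)} ∧ ∃ p ∈ P, org x.1 ∈ Pt p} =
      {x | ∃ p ∈ P, x ∈ {x : (σ × Fin (d + 1) → ℂ) × t.E | x.2 ∈ t.W ∧
        org x.1 ∈ Pt p ∧ Hit f d x.1 (t.c x.2)}} := by
    ext x
    constructor
    · rintro ⟨⟨h1, h2⟩, p, h3, h4⟩
      exact ⟨p, h3, h1, h4, h2⟩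
    · rintro ⟨p, h3, h1, h4, h2⟩
      exact ⟨⟨h1, h2⟩, p, h3, h4⟩
  have e2 : {x : (σ × Fin (d + 1) → ℂ) × t.E | x ∈ {x : (σ × Fin (d + 1) → ℂ) × t.E |
      x.2 ∈ t.W ∧ Hit f d x.1 (t.c x.2)} ∧ ¬ ∃ p ∈ P, org x.1 ∈ Pt p} =
      {x : (σ × Fin (d + 1) → ℂ) × t.E | x.2 ∈ t.W ∧
        org x.1 ∈ {x : σ → ℂ | ¬ ∃ p ∈ P, x ∈ Pt p} ∧
        (∃ i, aeval (org x.1) (pderiv i f) ≠ 0) ∧ Hit f d x.1 (t.c x.2)} := by
    ext x
    constructor
    · rintro ⟨⟨h1, h2⟩, h3⟩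
      refine ⟨h1, h3, ?_, h2⟩
      have h4 := h2 0 (Nat.zero_le _)
      rw [if_neg (fun h => hd h.symm), coeff_zero_arcEval] at h4
      by_contra h5
      push Not at h5
      exact h3 (hP _ h4 h5)
    · rintro ⟨h1, h3, -, h2⟩
      exact ⟨⟨h1, h2⟩, h3⟩
  rw [zt, mo_split (icons_hitSet d f t) (hT.mem horg), add_mul]
  congr 1
  · have e3 : ∀ p ∈ P, lz f p d t = mo k {x : (σ × Fin (d + 1) → ℂ) × t.E | x.2 ∈ t.W ∧
        org x.1 ∈ Pt p ∧ Hit f d x.1 (t.c x.2)} * ↑(Lu k ^ (-((Nat.card σ * d : ℕ) : ℤ))) :=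
      fun p _ => rfl
    rw [Finset.sum_congr rfl e3]
    refine Eq.trans ?_ (alg2 P _ _)
    congr 1
    refine Eq.trans (congrArg _ e1) (mo_biUnion P (fun p _ => hcc _ (pt_cons p)) ?_)
    intro p _ p' _ hpp
    rw [Set.disjoint_left]
    rintro x ⟨-, h1, -⟩ ⟨-, h2, -⟩
    apply hpp
    funext i
    exact (algebraMap k ℂ).injective ((h1 i).symm.trans (h2 i))
  · congr 1
    exact congrArg _ e2

end LOGAux

theorem LOG : LOGStmt := by
  intro k _ _ _ σ _ _ f P S hP hL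
  classical
  have hT : ICons k {x : σ → ℂ | ¬ ∃ p ∈ P, x ∈ LOGAux.Pt p} := by
    have e : {x : σ → ℂ | ∃ p ∈ P, x ∈ LOGAux.Pt p} = {x : σ → ℂ | ∃ p : P, x ∈ LOGAux.Pt p.1} := by
      ext x
      constructor
      · rintro ⟨P, h1, h2⟩
        exact ⟨⟨P, h1⟩, h2⟩
      · rintro ⟨⟨P, h1⟩, h2⟩
        exact ⟨P, h1, h2⟩
    have h : ICons k {x : σ → ℂ | ∃ p ∈ P, x ∈ LOGAux.Pt p} := by
      rw [e]
      exact ICons.exists_fin fun p => LOGAux.pt_cons p.1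
    exact h.not
  refine Inv.of_dif ?_
  have h1 := LOGAux.fsum (u := Lu k) (S := S) P fun p hp => hL p hp
  refine h1.congr fun t => ?_
  ext d
  rw [map_sum, PowerSeries.coeff_mk]
  simp only [PowerSeries.coeff_mk]
  by_cases hd : d = 0
  · simp only [if_pos hd, Finset.sum_const_zero]
  · simp only [if_neg hd]
    have h2 := mo_nc f (Nat.pos_of_ne_zero hd) hT t
    have h3 := LOGAux.key f P hP hd t
    have h4 := LOGAux.key f P hP hd t.zr
    rw [h2] at h3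
    rw [h3, h4]
    exact LOGAux.alg P _ _ _

end Pool.Agent.H87.IS
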